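import Mathlib

set_option autoImplicit false

namespace Pool.Agent.H.MP_8879ae_al

section Nil
variable {B : Type} [Ring B]

theorem iter_leib (δ : B →+ B) (h : ∀ x y, δ (x * y) = δ x * y + x * δ y) (x y : B) (n : ℕ) :
    δ^[n] (x * y) = ∑ ij ∈ Finset.HasAntidiagonal.antidiagonal n, n.choose ij.1 • (δ^[ij.1] x * δ^[ij.2] y) := by
  induction n with
  | zero => simp
  | succ n ih =>
    rw [Finset.sum_antidiagonal_choose_succ_nsmul (fun i j => δ^[i] x * δ^[j] y) n,
      Function.iterate_succ_apply', ih, map_sum, add_comm, ← Finset.sum_add_distrib]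
    refine Finset.sum_congr rfl fun ij hij => ?_
    rw [map_nsmul, h, Function.iterate_succ_apply', Function.iterate_succ_apply', smul_add]
    congr 2
    rw [Finset.HasAntidiagonal.mem_antidiagonal] at hij
    exact Nat.choose_symm_of_eq_add hij.symm

theorem iter_zero (δ : B →+ B) {x : B} {a n : ℕ} (h : δ^[a] x = 0) (hn : a ≤ n) : δ^[n] x = 0 := by
  obtain ⟨k, rfl⟩ := Nat.exists_eq_add_of_le' hn
  rw [Function.iterate_add_apply, h, iterate_map_zero]

theorem top_mul (δ : B →+ B) (h : ∀ x y, δ (x * y) = δ x * y + x * δ y) {x y : B} {a b : ℕ}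
    (hx : δ^[a + 1] x = 0) (hy : δ^[b + 1] y = 0) :
    δ^[a + b] (x * y) = (a + b).choose a • (δ^[a] x * δ^[b] y) ∧ δ^[a + b + 1] (x * y) = 0 := by
  constructor
  · rw [iter_leib δ h, Finset.sum_eq_single (a, b)]
    · rintro ⟨i, j⟩ hij hne
      rw [Finset.HasAntidiagonal.mem_antidiagonal] at hij
      by_cases hi : a + 1 ≤ i
      · rw [iter_zero δ hx hi]; simp
      · have : b + 1 ≤ j := by
          by_contra h'
          apply hne
          simp only at hij
          ext <;> simp <;> omega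
        rw [iter_zero δ hy this]; simp
    · simp
  · rw [iter_leib δ h]
    refine Finset.sum_eq_zero ?_
    rintro ⟨i, j⟩ hij
    rw [Finset.HasAntidiagonal.mem_antidiagonal] at hij
    by_cases hi : a + 1 ≤ i
    · rw [iter_zero δ hx hi]; simp
    · rw [iter_zero δ hy (show b + 1 ≤ j by simp only at hij; omega)]; simp

theorem top_pow (δ : B →+ B) (h : ∀ x y, δ (x * y) = δ x * y + x * δ y) {x : B} {a : ℕ}
    (hx : δ^[a + 1] x = 0) (k : ℕ) :
    (∃ c : ℕ, c ≠ 0 ∧ δ^[a * (k + 1)] (x ^ (k + 1)) = c • (δ^[a] x) ^ (k + 1)) ∧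
      δ^[a * (k + 1) + 1] (x ^ (k + 1)) = 0 := by
  induction k with
  | zero => exact ⟨⟨1, one_ne_zero, by simp⟩, by simpa using hx⟩
  | succ k ih =>
    obtain ⟨⟨c, hc, h1⟩, h2⟩ := ih
    obtain ⟨h3, h4⟩ := top_mul δ h h2 hx
    rw [← pow_succ, ← mul_add_one] at h3 h4
    refine ⟨⟨(a * (k + 1 + 1)).choose (a * (k + 1)) * c, mul_ne_zero (Nat.choose_pos ?_).ne' hc, ?_⟩, h4⟩
    · nlinarith
    · rw [h3, h1, smul_mul_assoc, ← pow_succ, mul_smul]

theorem exists_top (δ : B →+ B) {x : B} (hx : x ≠ 0) {m : ℕ} (hm : δ^[m] x = 0) :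
    ∃ a, δ^[a] x ≠ 0 ∧ δ^[a + 1] x = 0 := by
  induction m with
  | zero => exact absurd hm hx
  | succ m ih =>
    by_cases h : δ^[m] x = 0
    · exact ih h
    · exact ⟨m, h, hm⟩

end Nil

variable {R : Type} [CommRing R] [Algebra ℂ R]

def ml (r : R) : Module.End ℂ R := LinearMap.mulLeft ℂ r

@[simp] theorem ml_apply (r x : R) : ml r x = r * x := rfl

theorem ml_mul (r s : R) : ml (r * s) = ml r * ml s := by ext; simp [mul_assoc]
theorem ml_one : ml (1 : R) = 1 := by ext; simp
theorem ml_add (r s : R) : ml (r + s) = ml r + ml s := by ext; simp [add_mul]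
theorem ml_pow (r : R) (k : ℕ) : ml (r ^ k) = ml r ^ k := by
  induction k with
  | zero => simp [ml_one]
  | succ k ih => rw [pow_succ, ml_mul, ih, pow_succ]

def cm (r : R) : Module.End ℂ R →+ Module.End ℂ R where
  toFun P := ml r * P - P * ml r
  map_zero' := by simp
  map_add' P Q := by noncomm_ring

theorem cm_apply (r : R) (P : Module.End ℂ R) : cm r P = ml r * P - P * ml r := rfl

theorem cm_mul (r : R) (P Q : Module.End ℂ R) : cm r (P * Q) = cm r P * Q + P * cm r Q := by
  simp only [cm_apply, mul_sub, sub_mul, mul_assoc]; abel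

theorem cm_ml (r s : R) : cm r (ml s) = 0 := by
  rw [cm_apply, ← ml_mul, ← ml_mul, mul_comm, sub_self]

theorem cm_cm (r s : R) (P : Module.End ℂ R) : cm r (cm s P) = cm s (cm r P) := by
  have h : ml r * ml s = ml s * ml r := by rw [← ml_mul, ← ml_mul, mul_comm]
  simp only [cm_apply, mul_sub, sub_mul, mul_assoc]
  rw [← mul_assoc (ml r) (ml s), h, mul_assoc]
  abel

def D : ℕ → AddSubgroup (Module.End ℂ R)
  | 0 => ⊥
  | m + 1 => ⨅ r : R, (D m).comap (cm r)

theorem mem_D {m : ℕ} {P : Module.End ℂ R} : P ∈ D (m + 1) ↔ ∀ r, cm r P ∈ D m := by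
  simp [D, AddSubgroup.mem_iInf]

theorem mem_D0 {P : Module.End ℂ R} : P ∈ D 0 ↔ P = 0 := by simp [D]

theorem D_succ {m : ℕ} {P : Module.End ℂ R} (h : P ∈ D m) : P ∈ D (m + 1) := by
  induction m generalizing P with
  | zero => rw [mem_D0.1 h]; exact zero_mem _
  | succ m ih => exact mem_D.2 fun r => ih (mem_D.1 h r)

theorem D_mono {m n : ℕ} (h : m ≤ n) {P : Module.End ℂ R} (hP : P ∈ D m) : P ∈ D n := by
  induction h with
  | refl => exact hP
  | step _ ih => exact D_succ ih

theorem D_mul (N : ℕ) : ∀ (m n : ℕ) (P Q : Module.End ℂ R), m + n = N → P ∈ D m → Q ∈ D n →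
    P * Q ∈ D N := by
  induction N with
  | zero =>
    intro m n P Q h hP _
    obtain rfl : m = 0 := by omega
    rw [mem_D0.1 hP, zero_mul]; exact zero_mem _
  | succ N ih =>
    intro m n P Q h hP hQ
    rcases m with _ | m
    · rw [mem_D0.1 hP, zero_mul]; exact zero_mem _
    rcases n with _ | n
    · rw [mem_D0.1 hQ, mul_zero]; exact zero_mem _
    refine mem_D.2 fun r => ?_
    rw [cm_mul]
    exact add_mem (ih m (n + 1) _ _ (by omega) (mem_D.1 hP r) hQ)
      (ih (m + 1) n _ _ (by omega) hP (mem_D.1 hQ r))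

theorem ml_mem (r : R) : ml r ∈ D 1 := mem_D.2 fun s => by rw [cm_ml]; exact zero_mem _

theorem cm_der (r : R) (E : Derivation ℂ R R) : cm r (E : Module.End ℂ R) = - ml (E r) := by
  ext x
  simp [cm_apply, mul_comm]

theorem der_mem (E : Derivation ℂ R R) : (E : Module.End ℂ R) ∈ D 2 :=
  mem_D.2 fun s => by rw [cm_der]; exact neg_mem (ml_mem _)

theorem D_lie (E : Derivation ℂ R R) {m : ℕ} {P : Module.End ℂ R} (h : P ∈ D m) :
    (E : Module.End ℂ R) * P - P * E ∈ D m := by
  induction m generalizing P with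
  | zero => rw [mem_D0.1 h]; simp
  | succ m ih =>
    refine mem_D.2 fun r => ?_
    have : cm r ((E : Module.End ℂ R) * P - P * E) =
        ((E : Module.End ℂ R) * cm r P - cm r P * E) - cm (E r) P := by
      rw [map_sub, cm_mul, cm_mul, cm_der, cm_apply (E r)]
      ext y
      simp only [LinearMap.sub_apply, LinearMap.add_apply, Module.End.mul_apply, LinearMap.neg_apply,
        map_neg]
      abel
    rw [this]
    exact sub_mem (ih (mem_D.1 h r)) (mem_D.1 h _)

theorem D_iter (r : R) {m : ℕ} {P : Module.End ℂ R} (h : P ∈ D m) : (cm r)^[m] P = 0 := by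
  induction m generalizing P with
  | zero => exact mem_D0.1 h
  | succ m ih => rw [Function.iterate_succ_apply]; exact ih (mem_D.1 h r)

theorem D_iter_mem (r : R) {m : ℕ} (a : ℕ) {P : Module.End ℂ R} (h : P ∈ D m) :
    (cm r)^[a] P ∈ D m := by
  induction a with
  | zero => exact h
  | succ a ih =>
    rw [Function.iterate_succ_apply']
    exact mem_D.1 (D_succ ih) r

def Gen (x : Fin 2 → R) : Prop :=
  ∀ S : Subalgebra ℂ R, (∀ i, x i ∈ S) → (∀ r r', r * r' = 1 → r ∈ S → r' ∈ S) → ∀ r, r ∈ S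

theorem eq_ml {x : Fin 2 → R} (hx : Gen x) {P : Module.End ℂ R} (h : ∀ i, cm (x i) P = 0) :
    P = ml (P 1) := by
  let S : Subalgebra ℂ R :=
    { carrier := {r | ∀ y, P (r * y) = r * P y}
      mul_mem' := fun {a b} ha hb y => by rw [mul_assoc, ha, hb, mul_assoc]
      add_mem' := fun {a b} ha hb y => by rw [add_mul, map_add, ha, hb, add_mul]
      algebraMap_mem' := fun c y => by rw [← Algebra.smul_def, ← Algebra.smul_def, map_smul] }
  have := hx S (fun i y => by
      have := LinearMap.congr_fun (h i) y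
      simp only [cm_apply, LinearMap.sub_apply, Module.End.mul_apply, ml_apply,
        LinearMap.zero_apply] at this
      exact (sub_eq_zero.1 this).symm)
    (fun r r' e hr y => by
      have := hr (r' * y)
      rw [← mul_assoc, e, one_mul] at this
      rw [this, ← mul_assoc, mul_comm r' r, e, one_mul])
  ext y
  have := this y 1
  rw [mul_one] at this
  rw [this, ml_apply, mul_comm]

theorem nsmul_zero {c : ℕ} (hc : c ≠ 0) {P : Module.End ℂ R} (h : c • P = 0) : P = 0 := by
  rw [← Nat.cast_smul_eq_nsmul ℂ] at h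
  exact (smul_eq_zero.1 h).resolve_left (by exact_mod_cast hc)

theorem comm_iter (r s : R) (b : ℕ) {P : Module.End ℂ R} (h : cm r P = 0) :
    cm r ((cm s)^[b] P) = 0 := by
  induction b with
  | zero => exact h
  | succ b ih => rw [Function.iterate_succ_apply', cm_cm, ih, map_zero]

theorem bounded [IsDomain R] {x : Fin 2 → R} (hx : Gen x) {τ : Module.End ℂ R} {m : ℕ}
    (h : ∀ k, τ ^ k ∈ D m) : τ = ml (τ 1) := by
  have key : ∀ (i j : Fin 2), (∀ l, l = i ∨ l = j) → cm (x i) τ = 0 := by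
    intro i j hij
    by_contra hne
    have hτ : τ ∈ D m := by simpa using h 1
    have hτ0 : τ ≠ 0 := by rintro rfl; simp at hne
    obtain ⟨a, ha, ha'⟩ := exists_top (cm (x i)) hτ0 (D_iter (x i) hτ)
    have ha0 : a ≠ 0 := by rintro rfl; exact hne ha'
    obtain ⟨⟨c, hc, h1⟩, -⟩ := top_pow (cm (x i)) (cm_mul _) ha' m
    rw [iter_zero _ (D_iter (x i) (h (m + 1))) (by nlinarith [Nat.pos_of_ne_zero ha0])] at h1
    have h2 := nsmul_zero hc h1.symm
    set P := (cm (x i))^[a] τ with hP
    have hP1 : cm (x i) P = 0 := by rw [hP, ← Function.iterate_succ_apply' (cm (x i))]; exact ha'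
    obtain ⟨b, hb, hb'⟩ := exists_top (cm (x j)) ha (D_iter (x j) (D_iter_mem (x i) a hτ))
    obtain ⟨⟨c', hc', h3⟩, -⟩ := top_pow (cm (x j)) (cm_mul _) hb' m
    rw [h2, iterate_map_zero] at h3
    have h4 := nsmul_zero hc' h3.symm
    set Q := (cm (x j))^[b] P with hQ
    have h5 : Q = ml (Q 1) := eq_ml hx fun l => by
      rcases hij l with rfl | rfl
      · exact comm_iter _ _ _ hP1
      · rw [hQ, ← Function.iterate_succ_apply' (cm (x l))]; exact hb'
    rw [h5, ← ml_pow] at h4
    have h6 := LinearMap.congr_fun h4 1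
    simp only [ml_apply, mul_one, LinearMap.zero_apply] at h6
    apply hb
    rw [h5, pow_eq_zero_iff (by omega) |>.1 h6]
    ext; simp
  refine eq_ml hx fun i => ?_
  fin_cases i
  · exact key 0 1 (by decide)
  · exact key 1 0 (by decide)

theorem core [IsDomain R] {x : Fin 2 → R} (hx : Gen x) {τ : Module.End ℂ R} {m : ℕ} (hτ : τ ∈ D m)
    (E : ℕ → Derivation ℂ R R) (h : ∀ j, (E j : Module.End ℂ R) * τ - τ * E j = τ ^ j) :
    ∃ r : R, ∀ j, E j r = r ^ j := by
  have h1 := bounded hx (τ := τ) (m := m) fun k => by rw [← h]; exact D_lie _ hτ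
  refine ⟨τ 1, fun j => ?_⟩
  have h2 := h j
  rw [h1, ← ml_pow] at h2
  simpa using LinearMap.congr_fun h2 1

section VF
variable {B : Type} [Ring B] [Algebra ℂ B]

theorem comm_all {x : Fin 2 → R} (hx : Gen x) (ι : R →ₐ[ℂ] B) (d : Derivation ℂ R R) (e : B)
    (h : ∀ i, e * ι (x i) - ι (x i) * e = ι (d (x i))) (r : R) : e * ι r - ι r * e = ι (d r) := by
  let S : Subalgebra ℂ R :=
    { carrier := {r | e * ι r - ι r * e = ι (d r)}
      mul_mem' := fun {a b} ha hb => by
        have ha : e * ι a - ι a * e = ι (d a) := ha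
        have hb : e * ι b - ι b * e = ι (d b) := hb
        show e * ι (a * b) - ι (a * b) * e = ι (d (a * b))
        rw [Derivation.leibniz, smul_eq_mul, smul_eq_mul, mul_comm b, map_add, map_mul, map_mul,
          map_mul, ← ha, ← hb]
        noncomm_ring
      add_mem' := fun {a b} ha hb => by
        have ha : e * ι a - ι a * e = ι (d a) := ha
        have hb : e * ι b - ι b * e = ι (d b) := hb
        show e * ι (a + b) - ι (a + b) * e = ι (d (a + b))
        rw [map_add, map_add, map_add, ← ha, ← hb]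
        noncomm_ring
      algebraMap_mem' := fun c => by
        show e * ι _ - ι _ * e = ι (d _)
        rw [AlgHom.commutes, Derivation.map_algebraMap, map_zero, Algebra.commutes, sub_self] }
  refine hx S h (fun r r' hr h1 => ?_) r
  have h1 : e * ι r - ι r * e = ι (d r) := h1
  show e * ι r' - ι r' * e = ι (d r')
  have h2 : d r' = - (r' * d r * r') := by
    have := congrArg d hr
    rw [Derivation.leibniz, smul_eq_mul, smul_eq_mul, Derivation.map_one_eq_zero] at this
    linear_combination r' * this - d r' * hr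
  have h3 : ι r * ι r' = 1 := by rw [← map_mul, hr, map_one]
  have h4 : ι r' * ι r = 1 := by rw [← map_mul, mul_comm, hr, map_one]
  rw [h2, map_neg, map_mul, map_mul, ← h1, mul_sub, sub_mul, mul_assoc, mul_assoc, h3,
    ← mul_assoc (ι r') (ι r), h4]
  simp

theorem vf_lie (ι : R →ₐ[ℂ] B) (d0 d1 : Derivation ℂ R R) (e0 e1 : B) (he : e0 * e1 = e1 * e0)
    (h0 : ∀ r, e0 * ι r - ι r * e0 = ι (d0 r)) (h1 : ∀ r, e1 * ι r - ι r * e1 = ι (d1 r))
    (a b a' b' : R) :
    (ι a * e0 + ι b * e1) * (ι a' * e0 + ι b' * e1) - (ι a' * e0 + ι b' * e1) * (ι a * e0 + ι b * e1) =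
      ι ((a • d0 + b • d1) a' - (a' • d0 + b' • d1) a) * e0 +
      ι ((a • d0 + b • d1) b' - (a' • d0 + b' • d1) b) * e1 := by
  have c : ∀ u v : R, ι u * ι v = ι v * ι u := fun u v => by rw [← map_mul, mul_comm, map_mul]
  have g0 : ∀ r y, e0 * (ι r * y) = ι r * (e0 * y) + ι (d0 r) * y := fun r y => by
    rw [← h0]; noncomm_ring
  have g1 : ∀ r y, e1 * (ι r * y) = ι r * (e1 * y) + ι (d1 r) * y := fun r y => by
    rw [← h1]; noncomm_ring
  simp only [Derivation.add_apply, Derivation.smul_apply, smul_eq_mul, map_sub, map_add, map_mul,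
    mul_add, add_mul, sub_mul, mul_assoc, g0, g1, he]
  simp only [← mul_assoc, c a' a, c a' b, c b' a, c b' b]
  abel

end VF

end Pool.Agent.H.MP_8879ae_al
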