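import Mathlib

set_option autoImplicit false

namespace Pool.Agent.H.MP_8879ae_al

open FreeAlgebra TensorProduct

/-- Weyl algebra A_k: generators inl i = t_i, inr i = d_i -/
def wrel (k : ℕ) (a b : FreeAlgebra ℂ (Fin k ⊕ Fin k)) : Prop :=
  ∃ i j : Fin k,
    (a = ι ℂ (Sum.inl i) * ι ℂ (Sum.inl j) ∧ b = ι ℂ (Sum.inl j) * ι ℂ (Sum.inl i)) ∨
    (a = ι ℂ (Sum.inr i) * ι ℂ (Sum.inr j) ∧ b = ι ℂ (Sum.inr j) * ι ℂ (Sum.inr i)) ∨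
    (a = ι ℂ (Sum.inr i) * ι ℂ (Sum.inl j) - ι ℂ (Sum.inl j) * ι ℂ (Sum.inr i) ∧
      b = if i = j then 1 else 0)

abbrev Weyl (k : ℕ) : Type := RingQuot (wrel k)

noncomputable def wt {k : ℕ} (i : Fin k) : Weyl k := RingQuot.mkAlgHom ℂ _ (ι ℂ (Sum.inl i))
noncomputable def wd {k : ℕ} (i : Fin k) : Weyl k := RingQuot.mkAlgHom ℂ _ (ι ℂ (Sum.inr i))

/-- localised Weyl algebra: generators (0,i) = t_i, (1,i) = d_i, (2,i) = inverse of t_i -/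
def lrel (k : ℕ) (a b : FreeAlgebra ℂ (Fin 3 × Fin k)) : Prop :=
  ∃ i j : Fin k,
    (a = ι ℂ (0, i) * ι ℂ (0, j) ∧ b = ι ℂ (0, j) * ι ℂ (0, i)) ∨
    (a = ι ℂ (1, i) * ι ℂ (1, j) ∧ b = ι ℂ (1, j) * ι ℂ (1, i)) ∨
    (a = ι ℂ (1, i) * ι ℂ (0, j) - ι ℂ (0, j) * ι ℂ (1, i) ∧ b = if i = j then 1 else 0) ∨
    (a = ι ℂ (0, i) * ι ℂ (2, i) ∧ b = 1) ∨ (a = ι ℂ (2, i) * ι ℂ (0, i) ∧ b = 1)

abbrev LWeyl (k : ℕ) : Type := RingQuot (lrel k)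

noncomputable def lt {k : ℕ} (i : Fin k) : LWeyl k := RingQuot.mkAlgHom ℂ _ (ι ℂ (0, i))
noncomputable def ld {k : ℕ} (i : Fin k) : LWeyl k := RingQuot.mkAlgHom ℂ _ (ι ℂ (1, i))
noncomputable def lu {k : ℕ} (i : Fin k) : LWeyl k := RingQuot.mkAlgHom ℂ _ (ι ℂ (2, i))

/-- the Laurent monomial t_i^m -/
noncomputable def lpow {k : ℕ} (i : Fin k) (m : ℤ) : LWeyl k :=
  if 0 ≤ m then lt i ^ m.natAbs else lu i ^ m.natAbs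

/-- U(W_{-1}), generator j = t^j d -/
def mrel (a b : FreeAlgebra ℂ ℕ) : Prop :=
  ∃ i j : ℕ,
    a = ι ℂ i * ι ℂ j - ι ℂ j * ι ℂ i ∧ b = ((j : ℂ) - (i : ℂ)) • ι ℂ (i + j - 1)

abbrev UWm : Type := RingQuot (mrel)

noncomputable def em (j : ℕ) : UWm := RingQuot.mkAlgHom ℂ _ (ι ℂ j)

/-- U(W), generator j = t^j d -/
def zrel (a b : FreeAlgebra ℂ ℤ) : Prop :=
  ∃ i j : ℤ,
    a = ι ℂ i * ι ℂ j - ι ℂ j * ι ℂ i ∧ b = ((j : ℂ) - (i : ℂ)) • ι ℂ (i + j - 1)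

abbrev UW  : Type := RingQuot (zrel)

noncomputable def ez (j : ℤ) : UW := RingQuot.mkAlgHom ℂ _ (ι ℂ j)

/-- U(g_n), generator (i,a) = v_a in the i-th summand, zero for a ≥ n i -/
def grel {l : ℕ} (n : Fin l → ℕ) (a b : FreeAlgebra ℂ (Fin l × ℕ)) : Prop :=
  ∃ (i i' : Fin l) (p q : ℕ),
    (a = ι ℂ (i, p) * ι ℂ (i', q) - ι ℂ (i', q) * ι ℂ (i, p) ∧
      b = if i = i' then ((q : ℂ) - (p : ℂ)) • ι ℂ (i, p + q) else 0) ∨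
    (n i ≤ p ∧ a = ι ℂ (i, p) ∧ b = 0)

abbrev Ug {l : ℕ} (n : Fin l → ℕ) : Type := RingQuot (grel n)

noncomputable def gv {l : ℕ} (n : Fin l → ℕ) (i : Fin l) (p : ℕ) : Ug n :=
  RingQuot.mkAlgHom ℂ _ (ι ℂ (i, p))

/-- the value of Psi_n on t^j d, polynomial case -/
noncomputable def psiM {l : ℕ} (n : Fin l → ℕ) (j : ℕ) : Weyl l ⊗[ℂ] Ug n :=
  ∑ i : Fin l, ((wt i ^ j * wd i) ⊗ₜ[ℂ] (1 : Ug n) +
    ∑ p ∈ Finset.range (n i),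
      (Polynomial.aeval (wt i) (Polynomial.hasseDeriv (p + 1) (Polynomial.X ^ j : Polynomial ℂ)))
        ⊗ₜ[ℂ] gv n i p)

/-- the value of Psi_n on t^j d, Laurent case -/
noncomputable def psiZ {l : ℕ} (n : Fin l → ℕ) (j : ℤ) : LWeyl l ⊗[ℂ] Ug n :=
  ∑ i : Fin l, ((lpow i j * ld i) ⊗ₜ[ℂ] (1 : Ug n) +
    ∑ p ∈ Finset.range (n i),
      (Ring.choose (j : ℂ) (p + 1) • lpow i (j - (p + 1))) ⊗ₜ[ℂ] gv n i p)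

end Pool.Agent.H.MP_8879ae_al
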