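import Pool.Agent.H.MP_8879ae_al.A
import Pool.Agent.H.MP_8879ae_al.Defs

set_option autoImplicit false

namespace Pool.Agent.H.MP_8879ae_al

open TensorProduct

theorem psi_comm {A C : Type} [Ring A] [Algebra ℂ A] [Ring C] [Algebra ℂ C] {l : ℕ} (i0 : Fin l)
    (t : A) (f e : Fin l → A) (n : Fin l → ℕ) (F : Fin l → ℕ → A) (v : Fin l → ℕ → C)
    (hf : ∀ i, f i * t = t * f i) (he : ∀ i, e i * t - t * e i = if i = i0 then 1 else 0)
    (hF : ∀ i p, F i p * t = t * F i p) :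
    (∑ i : Fin l, ((f i * e i) ⊗ₜ[ℂ] (1 : C) + ∑ p ∈ Finset.range (n i), F i p ⊗ₜ[ℂ] v i p)) *
        (t ⊗ₜ[ℂ] (1 : C)) - (t ⊗ₜ[ℂ] (1 : C)) *
      (∑ i : Fin l, ((f i * e i) ⊗ₜ[ℂ] (1 : C) + ∑ p ∈ Finset.range (n i), F i p ⊗ₜ[ℂ] v i p)) =
      f i0 ⊗ₜ[ℂ] (1 : C) := by
  rw [Finset.sum_mul, Finset.mul_sum, ← Finset.sum_sub_distrib, Finset.sum_eq_single i0]
  · simp only [add_mul, mul_add, Finset.sum_mul, Finset.mul_sum, Algebra.TensorProduct.tmul_mul_tmul,
      mul_one, one_mul, hF]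
    rw [add_sub_add_right_eq_sub, ← sub_tmul, ← mul_assoc, ← hf, mul_assoc, mul_assoc, ← mul_sub, he,
      if_pos rfl, mul_one]
  · intro i _ hi
    simp only [add_mul, mul_add, Finset.sum_mul, Finset.mul_sum, Algebra.TensorProduct.tmul_mul_tmul,
      mul_one, one_mul, hF]
    rw [add_sub_add_right_eq_sub, ← sub_tmul, ← mul_assoc, ← hf, mul_assoc, mul_assoc, ← mul_sub, he,
      if_neg hi, mul_zero, zero_tmul]
  · simp

variable {R : Type} [CommRing R] [Algebra ℂ R]

theorem final [IsDomain R] {x : Fin 2 → R} (hx : Gen x) {T B : Type} [Ring T] [Ring B]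
    (π : B →+* Module.End ℂ R) (hπ : ∀ y, ∃ m, π y ∈ D m) (g : T →+* B) (τ : T) (ψ : ℕ → T)
    (hψ : ∀ j, ψ j * τ - τ * ψ j = τ ^ j) (E : ℕ → Derivation ℂ R R)
    (hE : ∀ j, π (g (ψ j)) = E j) : ∃ r : R, ∀ j, E j r = r ^ j := by
  obtain ⟨m, hm⟩ := hπ (g τ)
  refine core hx hm E fun j => ?_
  rw [← hE]
  simp only [← map_mul, ← map_sub, ← map_pow, hψ]

theorem D_all {X : Type} (f : FreeAlgebra ℂ X →ₐ[ℂ] Module.End ℂ R)
    (h : ∀ i, f (FreeAlgebra.ι ℂ i) ∈ D 2) (y : FreeAlgebra ℂ X) : ∃ m, f y ∈ D m := by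
  induction y using FreeAlgebra.induction with
  | grade0 r =>
    refine ⟨1, ?_⟩
    have : f (algebraMap ℂ _ r) = ml (algebraMap ℂ R r) := by
      rw [AlgHom.commutes]; ext; simp [Algebra.smul_def]
    rw [this]; exact ml_mem _
  | grade1 n => exact ⟨2, h n⟩
  | mul a b ha hb =>
    obtain ⟨m, hm⟩ := ha
    obtain ⟨n, hn⟩ := hb
    exact ⟨m + n, by rw [map_mul]; exact D_mul _ m n _ _ rfl hm hn⟩
  | add a b ha hb =>
    obtain ⟨m, hm⟩ := ha
    obtain ⟨n, hn⟩ := hb
    exact ⟨max m n, by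
      rw [map_add]; exact add_mem (D_mono (le_max_left _ _) hm) (D_mono (le_max_right _ _) hn)⟩

theorem der_ml (d : Derivation ℂ R R) (r : R) :
    (d : Module.End ℂ R) * ml r - ml r * d = ml (d r) := by
  have := cm_der r d
  rw [cm_apply] at this
  rw [← neg_sub, this, neg_neg]

theorem pi_iota {x : Fin 2 → R} (hx : Gen x) {B : Type} [Ring B] [Algebra ℂ B] (ι : R →ₐ[ℂ] B)
    (π : B →ₐ[ℂ] Module.End ℂ R) (h : ∀ i, π (ι (x i)) = ml (x i)) (r : R) : π (ι r) = ml r := by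
  let S : Subalgebra ℂ R :=
    { carrier := {r | π (ι r) = ml r}
      mul_mem' := fun {a b} ha hb => by
        show π (ι (a * b)) = ml (a * b)
        rw [map_mul, map_mul, ha, hb, ml_mul]
      add_mem' := fun {a b} ha hb => by
        show π (ι (a + b)) = ml (a + b)
        rw [map_add, map_add, ha, hb, ml_add]
      algebraMap_mem' := fun c => by
        show π (ι _) = ml _
        rw [AlgHom.commutes, AlgHom.commutes]; ext; simp [Algebra.smul_def] }
  refine hx S h (fun r r' hr h1 => ?_) r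
  have h1 : π (ι r) = ml r := h1
  show π (ι r') = ml r'
  have h2 : ml r * π (ι r') = 1 := by rw [← h1, ← map_mul, ← map_mul, hr, map_one, map_one]
  calc π (ι r') = ml r' * ml r * π (ι r') := by rw [← ml_mul, mul_comm r' r, hr, ml_one, one_mul]
    _ = ml r' := by rw [mul_assoc, h2, mul_one]

section Nat
variable (s p : R)

def ab : ℕ → R × R
  | 0 => (2, s)
  | n + 1 => (s * (ab n).1 - (ab n).2, p * (ab n).1)

theorem L1 (i j : ℕ) : (ab s p i).1 * (ab s p (j + 1)).1 - (ab s p i).2 * (ab s p j).1 =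
    s * (ab s p (i + j)).1 - 2 * (ab s p (i + j)).2 := by
  induction j using Nat.twoStepInduction with
  | zero => simp [ab]; ring
  | one => simp [ab]; ring
  | more j h1 h2 =>
    simp only [← add_assoc, ab] at h1 h2 ⊢
    linear_combination s * h2 - p * h1

variable {s p}

theorem L2 (E : Derivation ℂ R R) (i : ℕ) (hs : E s = (ab s p i).1) (hp : E p = (ab s p i).2)
    (j : ℕ) : E (ab s p (j + 1)).1 = ((j : R) + 1) * (ab s p (i + j)).1 ∧
      E (ab s p (j + 1)).2 = (ab s p i).2 * (ab s p j).1 + (j : R) * (ab s p (i + j)).2 := by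
  have h2 : E 2 = 0 := by simpa using E.map_natCast 2
  induction j with
  | zero => simp [ab, hs, hp, h2]; constructor <;> ring
  | succ j ih =>
    have := L1 s p i j
    constructor
    · rw [ab, map_sub, Derivation.leibniz, ih.1, ih.2, hs, ← add_assoc]
      simp only [smul_eq_mul, ab] at this ⊢
      push_cast
      linear_combination this
    · rw [ab, Derivation.leibniz, ih.1, hp, ← add_assoc]
      simp only [smul_eq_mul, ab]
      push_cast
      ring

theorem L3 (E : ℕ → Derivation ℂ R R) (hs : ∀ i, E i s = (ab s p i).1)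
    (hp : ∀ i, E i p = (ab s p i).2) (i j : ℕ) :
    E i (ab s p j).1 - E j (ab s p i).1 = ((j : R) - i) * (ab s p (i + j - 1)).1 ∧
    E i (ab s p j).2 - E j (ab s p i).2 = ((j : R) - i) * (ab s p (i + j - 1)).2 := by
  have h2 : ∀ i, E i 2 = 0 := fun i => by simpa using (E i).map_natCast 2
  rcases i with _ | i <;> rcases j with _ | j
  · simp
  · rw [(L2 _ _ (hs 0) (hp 0) j).1, (L2 _ _ (hs 0) (hp 0) j).2]
    simp only [ab, h2, hs, zero_add, add_tsub_cancel_right]
    push_cast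
    constructor <;> ring
  · rw [(L2 _ _ (hs 0) (hp 0) i).1, (L2 _ _ (hs 0) (hp 0) i).2]
    simp only [ab, h2, hs, zero_add, add_zero, add_tsub_cancel_right]
    push_cast
    constructor <;> ring
  · rw [(L2 _ _ (hs _) (hp _) j).1, (L2 _ _ (hs _) (hp _) j).2, (L2 _ _ (hs _) (hp _) i).1,
      (L2 _ _ (hs _) (hp _) i).2, show i + 1 + (j + 1) - 1 = i + j + 1 by omega,
      show i + 1 + j = i + j + 1 by omega, show j + 1 + i = i + j + 1 by omega]
    simp only [ab]
    push_cast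
    constructor <;> ring

end Nat

open MvPolynomial

abbrev R1 : Type := MvPolynomial (Fin 2) ℂ

theorem gen1 : Gen (X : Fin 2 → R1) := by
  intro S h _ r
  induction r using MvPolynomial.induction_on with
  | C a => exact S.algebraMap_mem a
  | add p q hp hq => exact S.add_mem hp hq
  | mul_X p i hp => exact S.mul_mem hp (h i)

theorem wtt {k : ℕ} (i j : Fin k) : wt i * wt j = wt j * wt i := by
  simp only [wt, ← map_mul]
  exact RingQuot.mkAlgHom_rel ℂ ⟨i, j, Or.inl ⟨rfl, rfl⟩⟩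

theorem wdd {k : ℕ} (i j : Fin k) : wd i * wd j = wd j * wd i := by
  simp only [wd, ← map_mul]
  exact RingQuot.mkAlgHom_rel ℂ ⟨i, j, Or.inr (Or.inl ⟨rfl, rfl⟩)⟩

theorem wdt {k : ℕ} (i j : Fin k) : wd i * wt j - wt j * wd i = if i = j then 1 else 0 := by
  simp only [wd, wt, ← map_mul, ← map_sub]
  rw [RingQuot.mkAlgHom_rel ℂ ⟨i, j, Or.inr (Or.inr ⟨rfl, rfl⟩)⟩]
  split_ifs <;> simp

noncomputable def mon1 : Multiplicative (Fin 2 →₀ ℕ) →* Weyl 2 where
  toFun β := wt 0 ^ (β.toAdd 0) * wt 1 ^ (β.toAdd 1)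
  map_one' := by simp
  map_mul' β γ := by
    have h : Commute (wt (0 : Fin 2)) (wt 1) := wtt 0 1
    simp only [toAdd_mul, Finsupp.add_apply, pow_add, mul_assoc]
    congr 1
    rw [← mul_assoc, ← mul_assoc, (h.pow_pow _ _).eq]

noncomputable def iota1 : R1 →ₐ[ℂ] Weyl 2 := AddMonoidAlgebra.lift ℂ _ _ mon1

theorem iota1_X (i : Fin 2) : iota1 (X i) = wt i := by
  have : iota1 (X i) = mon1 (Multiplicative.ofAdd (Finsupp.single i 1)) := by
    rw [iota1, X, ← AddMonoidAlgebra.lift_of (R := ℂ)]; rfl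
  rw [this]
  fin_cases i <;> simp [mon1]

theorem pd_comm (i j : Fin 2) :
    ((pderiv i : Derivation ℂ R1 R1) : Module.End ℂ R1) * (pderiv j : Derivation ℂ R1 R1) =
      ((pderiv j : Derivation ℂ R1 R1) : Module.End ℂ R1) * (pderiv i : Derivation ℂ R1 R1) := by
  have : ⁅(pderiv i : Derivation ℂ R1 R1), (pderiv j : Derivation ℂ R1 R1)⁆ = 0 := by
    apply MvPolynomial.derivation_ext
    intro k
    simp only [Derivation.commutator_apply, pderiv_X, Pi.single_apply]
    split_ifs <;> simp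
  refine LinearMap.ext fun y => ?_
  have := congrArg (fun D : Derivation ℂ R1 R1 => D y) this
  simp only [Derivation.commutator_apply, Derivation.zero_apply] at this
  exact sub_eq_zero.1 this

noncomputable def pi1 : Weyl 2 →ₐ[ℂ] Module.End ℂ R1 :=
  RingQuot.liftAlgHom ℂ ⟨FreeAlgebra.lift ℂ (Sum.elim (fun i => ml (X i))
    (fun i => ((pderiv i : Derivation ℂ R1 R1) : Module.End ℂ R1))), by
    rintro x y ⟨i, j, ⟨rfl, rfl⟩ | ⟨rfl, rfl⟩ | ⟨rfl, rfl⟩⟩
    · simp only [map_mul, FreeAlgebra.lift_ι_apply, Sum.elim_inl, ← ml_mul, mul_comm]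
    · simp only [map_mul, FreeAlgebra.lift_ι_apply, Sum.elim_inr, pd_comm i j]
    · simp only [map_mul, map_sub, FreeAlgebra.lift_ι_apply, Sum.elim_inr, Sum.elim_inl, der_ml,
        pderiv_X, Pi.single_apply]
      by_cases h : i = j
      · simp [h, ml_one]
      · rw [if_neg h, if_neg (Ne.symm h)]; ext; simp⟩

theorem pi1_t (i : Fin 2) : pi1 (wt i) = ml (X i) := by
  simp [pi1, wt, RingQuot.liftAlgHom_mkAlgHom_apply]

theorem pi1_d (i : Fin 2) : pi1 (wd i) = ((pderiv i : Derivation ℂ R1 R1) : Module.End ℂ R1) := by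
  simp [pi1, wd, RingQuot.liftAlgHom_mkAlgHom_apply]

theorem pi1_D (y : Weyl 2) : ∃ m, pi1 y ∈ D m := by
  obtain ⟨y, rfl⟩ := RingQuot.mkAlgHom_surjective ℂ _ y
  refine D_all (pi1.comp (RingQuot.mkAlgHom ℂ _)) ?_ y
  rintro (i | i)
  · exact (pi1_t i).symm ▸ D_succ (ml_mem _)
  · exact (pi1_d i).symm ▸ der_mem _

noncomputable def E1 (j : ℕ) : Derivation ℂ R1 R1 :=
  (ab (X 0 : R1) (X 1) j).1 • pderiv 0 + (ab (X 0 : R1) (X 1) j).2 • pderiv 1

noncomputable def V1 (j : ℕ) : Weyl 2 :=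
  iota1 (ab (X 0 : R1) (X 1) j).1 * wd 0 + iota1 (ab (X 0 : R1) (X 1) j).2 * wd 1

theorem E1_s (j : ℕ) : E1 j (X 0) = (ab (X 0 : R1) (X 1) j).1 := by simp [E1]
theorem E1_p (j : ℕ) : E1 j (X 1) = (ab (X 0 : R1) (X 1) j).2 := by simp [E1]

theorem V1_lie (i j : ℕ) : V1 i * V1 j - V1 j * V1 i = ((j : ℂ) - (i : ℂ)) • V1 (i + j - 1) := by
  have hc : ∀ (k : Fin 2) (r : R1), wd k * iota1 r - iota1 r * wd k = iota1 (pderiv k r) :=
    fun k => comm_all gen1 iota1 (pderiv k) (wd k) fun i => by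
      rw [iota1_X, wdt, pderiv_X, Pi.single_apply]
      by_cases h : k = i
      · simp [h]
      · rw [if_neg h, if_neg (Ne.symm h), map_zero]
  have h := L3 E1 E1_s E1_p i j
  rw [V1, V1, vf_lie iota1 (pderiv 0) (pderiv 1) _ _ (wdd 0 1) (hc 0) (hc 1)]
  change iota1 (E1 i _ - E1 j _) * _ + iota1 (E1 i _ - E1 j _) * _ = _
  rw [h.1, h.2, V1, smul_add, map_mul, map_mul, map_sub, map_natCast, map_natCast,
    Algebra.smul_def, Algebra.smul_def, map_sub, map_natCast, map_natCast, mul_assoc, mul_assoc]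

noncomputable def phi1 : UWm →ₐ[ℂ] Weyl 2 :=
  RingQuot.liftAlgHom ℂ ⟨FreeAlgebra.lift ℂ V1, by
    rintro x y ⟨i, j, rfl, rfl⟩
    simp only [map_mul, map_sub, map_smul, FreeAlgebra.lift_ι_apply, V1_lie]⟩

theorem phi1_em (j : ℕ) : phi1 (em j) = V1 j := by
  simp [phi1, em, RingQuot.liftAlgHom_mkAlgHom_apply]

theorem pi1_V (j : ℕ) : pi1 (V1 j) = E1 j := by
  have h := pi_iota gen1 iota1 pi1 (fun i => by rw [iota1_X, pi1_t])
  rw [V1, map_add, map_mul, map_mul, h, h, pi1_d, pi1_d]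
  refine LinearMap.ext fun y => ?_
  simp [E1]

theorem root {s p : R} (d0 d1 : Derivation ℂ R R) (r : R)
    (h : ∀ j, ((ab s p j).1 • d0 + (ab s p j).2 • d1) r = r ^ j) : r ^ 2 - s * r + p = 0 := by
  have h0 := h 0
  have h1 := h 1
  have h2 := h 2
  simp only [ab, Derivation.add_apply, Derivation.smul_apply, smul_eq_mul] at h0 h1 h2
  linear_combination -h2 + s * h1 - p * h0

theorem notsq (q : Polynomial ℂ) (n : ℕ) :
    q ^ 2 ≠ Polynomial.X ^ (2 * n) * (1 - Polynomial.X) := by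
  intro h
  have h1 := congrArg Polynomial.natDegree h
  have h2 : (1 - Polynomial.X : Polynomial ℂ).natDegree = 1 := by compute_degree!
  rw [Polynomial.natDegree_pow, Polynomial.natDegree_mul (by simp)
    (by intro e; rw [e] at h2; simp at h2), h2, Polynomial.natDegree_X_pow] at h1
  omega

theorem Q1 : ∃ φ : UWm →ₐ[ℂ] Weyl 2, ∀ (l : ℕ) (n : Fin l → ℕ)
    (g : Weyl l ⊗[ℂ] Ug n →+* Weyl 2), ¬ ∀ j, g (psiM n j) = φ (em j) := by
  refine ⟨phi1, fun l n g h => ?_⟩
  rcases l with _ | l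
  · have h0 := congrArg pi1 (h 0)
    rw [phi1_em, pi1_V, psiM, Finset.univ_eq_empty, Finset.sum_empty, map_zero, map_zero] at h0
    have := LinearMap.congr_fun h0 (X 0)
    simp only [LinearMap.zero_apply, Derivation.coeFn_coe, E1_s, ab] at this
    exact two_ne_zero this.symm
  obtain ⟨r, hr⟩ := final gen1 pi1.toRingHom pi1_D g (wt 0 ⊗ₜ[ℂ] 1) (psiM n) (fun j => by
      rw [psiM, psi_comm 0 (wt 0) (fun i => wt i ^ j) wd n _ _
        (fun i => ((show Commute (wt i) (wt 0) from wtt i 0).pow_left j).eq) (fun i => wdt i 0)]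
      · simp
      · intro i p
        rw [Polynomial.X_pow_eq_monomial, Polynomial.hasseDeriv_monomial, Polynomial.aeval_monomial,
          mul_assoc, ((show Commute (wt i) (wt 0) from wtt i 0).pow_left _).eq, ← mul_assoc,
          Algebra.commutes, mul_assoc]) E1
    (fun j => by rw [h, phi1_em]; exact pi1_V j)
  have h1 := congrArg (aeval ![(2 : Polynomial ℂ), Polynomial.X]) (root _ _ r hr)
  simp only [map_add, map_sub, map_pow, map_mul, aeval_X, map_zero, Matrix.cons_val_zero,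
    Matrix.cons_val_one] at h1
  apply notsq (aeval ![(2 : Polynomial ℂ), Polynomial.X] r - 1) 0
  linear_combination h1

end Pool.Agent.H.MP_8879ae_al
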