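import Pool.Agent.H.MP_8879ae_al.B

set_option autoImplicit false

namespace Pool.Agent.H.MP_8879ae_al

open TensorProduct

section Int
variable {R : Type} [CommRing R] [Algebra ℂ R] {s p q : R}

def stp (s p q : R) (h : p * q = 1) : Equiv.Perm (R × R) where
  toFun v := (s * v.1 - v.2, p * v.1)
  invFun v := (q * v.2, s * (q * v.2) - v.1)
  left_inv v := by
    ext
    · simp only; rw [← mul_assoc, mul_comm q, h, one_mul]
    · simp only; rw [← mul_assoc q, mul_comm q, h, one_mul]; ring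
  right_inv v := by
    ext
    · simp only; ring
    · simp only; rw [← mul_assoc, h, one_mul]

def abz (s p q : R) (h : p * q = 1) (n : ℤ) : R × R := (stp s p q h ^ n) (2, s)

theorem abz_zero (h : p * q = 1) : abz s p q h 0 = (2, s) := rfl

theorem abz_succ (h : p * q = 1) (n : ℤ) :
    abz s p q h (n + 1) = (s * (abz s p q h n).1 - (abz s p q h n).2, p * (abz s p q h n).1) := by
  rw [abz, add_comm, zpow_one_add]; rfl

theorem abz_nat (h : p * q = 1) (n : ℕ) : abz s p q h n = ab s p n := by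
  induction n with
  | zero => rfl
  | succ n ih => rw [Nat.cast_succ, abz_succ, ih]; rfl

theorem rec0 (h : p * q = 1) (u : ℤ → R) (h0 : u 0 = 0) (h1 : u 1 = 0)
    (hr : ∀ n, u (n + 1 + 1) = s * u (n + 1) - p * u n) (n : ℤ) : u n = 0 := by
  have : u n = 0 ∧ u (n + 1) = 0 := by
    induction n using Int.induction_on with
    | zero => exact ⟨h0, h1⟩
    | succ n ih => exact ⟨ih.2, by rw [hr, ih.1, ih.2]; simp⟩
    | pred n ih =>
      have e := hr (-n - 1)
      rw [sub_add_cancel, ih.1, ih.2] at e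
      refine ⟨?_, by rw [sub_add_cancel]; exact ih.1⟩
      linear_combination q * e - u (-n - 1) * h
  exact this.1

theorem Z1 (h : p * q = 1) (i j : ℤ) :
    (abz s p q h i).1 * (abz s p q h (j + 1)).1 - (abz s p q h i).2 * (abz s p q h j).1 =
    s * (abz s p q h (i + j)).1 - 2 * (abz s p q h (i + j)).2 := by
  rw [← sub_eq_zero]
  refine rec0 (s := s) h (fun j => (abz s p q h i).1 * (abz s p q h (j + 1)).1 -
    (abz s p q h i).2 * (abz s p q h j).1 -
    (s * (abz s p q h (i + j)).1 - 2 * (abz s p q h (i + j)).2)) ?_ ?_ (fun n => ?_) j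
  · simp only [abz_succ, abz_zero, add_zero]; ring
  · have : abz s p q h 1 = (s * 2 - s, p * 2) := by
      have := abz_succ (s := s) h 0
      rwa [zero_add] at this
    simp only [abz_succ, this]; ring
  · simp only [← add_assoc, abz_succ]; ring

theorem Z2 (h : p * q = 1) (E : Derivation ℂ R R) (i : ℤ) (hs : E s = (abz s p q h i).1)
    (hp : E p = (abz s p q h i).2) (j : ℤ) :
    E (abz s p q h j).1 = (j : R) * (abz s p q h (i + j - 1)).1 := by
  have h2 : E 2 = 0 := by simpa using E.map_natCast 2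
  rw [← sub_eq_zero]
  refine rec0 (s := s) h (fun j => E (abz s p q h j).1 - (j : R) * (abz s p q h (i + j - 1)).1)
    ?_ ?_ (fun n => ?_) j
  · simp [abz_zero, h2]
  · have : abz s p q h 1 = (s * 2 - s, p * 2) := by
      have := abz_succ (s := s) h 0
      rwa [zero_add] at this
    simp [this, h2, hs]; ring
  · have e := Z1 (s := s) h i n
    have e1 : (abz s p q h (n + 1 + 1)).1 = s * (abz s p q h (n + 1)).1 - p * (abz s p q h n).1 := by
      rw [abz_succ h (n + 1), abz_succ h n]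
    rw [e1, show i + (n + 1 + 1) - 1 = i + n - 1 + 1 + 1 by ring,
      show i + (n + 1) - 1 = i + n - 1 + 1 by ring]
    rw [show i + n = i + n - 1 + 1 by ring] at e
    simp only [map_sub, Derivation.leibniz, hs, hp, smul_eq_mul]
    rw [abz_succ h (i + n - 1 + 1)]
    rw [abz_succ h (i + n - 1)] at e ⊢
    push_cast
    linear_combination e

theorem Z3 (h : p * q = 1) (E : ℤ → Derivation ℂ R R) (hs : ∀ i, E i s = (abz s p q h i).1)
    (hp : ∀ i, E i p = (abz s p q h i).2) (i j : ℤ) :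
    E i (abz s p q h j).1 - E j (abz s p q h i).1 = ((j : R) - i) * (abz s p q h (i + j - 1)).1 ∧
    E i (abz s p q h j).2 - E j (abz s p q h i).2 = ((j : R) - i) * (abz s p q h (i + j - 1)).2 := by
  have b : ∀ n, (abz s p q h n).2 = p * (abz s p q h (n - 1)).1 := fun n => by
    have := abz_succ (s := s) h (n - 1)
    rw [sub_add_cancel] at this
    rw [this]
  constructor
  · rw [Z2 h _ _ (hs i) (hp i), Z2 h _ _ (hs j) (hp j), add_comm j i]; ring
  · rw [b j, b i, b (i + j - 1), Derivation.leibniz, Derivation.leibniz, Z2 h _ _ (hs i) (hp i),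
      Z2 h _ _ (hs j) (hp j), hp, hp, b i, b j, show i + (j - 1) - 1 = i + j - 1 - 1 by ring,
      show j + (i - 1) - 1 = i + j - 1 - 1 by ring]
    simp only [smul_eq_mul]
    push_cast
    ring

end Int

abbrev R2 : Type := AddMonoidAlgebra ℂ (Fin 2 → ℤ)

noncomputable def mo (a : Fin 2 → ℤ) : R2 := AddMonoidAlgebra.single a 1

theorem mo_add (a b : Fin 2 → ℤ) : mo (a + b) = mo a * mo b := by
  simp [mo, AddMonoidAlgebra.single_mul_single]

theorem mo_zero : mo 0 = 1 := rfl

noncomputable def xx (i : Fin 2) : R2 := mo (Pi.single i 1)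
noncomputable def yy (i : Fin 2) : R2 := mo (-Pi.single i 1)

theorem xy (i : Fin 2) : xx i * yy i = 1 := by rw [xx, yy, ← mo_add, add_neg_cancel, mo_zero]

theorem gen2 : Gen xx := by
  intro S h hi r
  have h1 : ∀ (i : Fin 2) (n : ℤ), mo (Pi.single i n) ∈ S := by
    intro i n
    induction n using Int.induction_on with
    | zero => simpa [mo_zero] using S.one_mem
    | succ n ih => rw [Pi.single_add, mo_add]; exact S.mul_mem ih (h i)
    | pred n ih =>
      have e : (Pi.single i (-1 : ℤ) : Fin 2 → ℤ) = -Pi.single i 1 := by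
        funext k; by_cases hk : k = i <;> simp [Pi.single_apply, hk]
      rw [sub_eq_add_neg, Pi.single_add, mo_add, e]
      exact S.mul_mem ih (hi _ _ (xy i) (h i))
  induction r using AddMonoidAlgebra.induction_linear with
  | zero => exact S.zero_mem
  | add a b ha hb => exact S.add_mem ha hb
  | single a c =>
    have e : a = Pi.single 0 (a 0) + Pi.single 1 (a 1) := by
      funext i; fin_cases i <;> simp
    have : AddMonoidAlgebra.single a c = c • mo a := by simp [mo]
    rw [this, e, mo_add]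
    exact S.smul_mem (S.mul_mem (h1 _ _) (h1 _ _)) _

noncomputable def thL (i : Fin 2) : R2 →ₗ[ℂ] R2 :=
  (Finsupp.linearCombination ℂ (fun a : Fin 2 → ℤ => (a i : ℂ) • mo a)) ∘ₗ
    (AddMonoidAlgebra.coeffLinearEquiv ℂ).toLinearMap

theorem thL_single (i : Fin 2) (a : Fin 2 → ℤ) (c : ℂ) :
    thL i (AddMonoidAlgebra.single a c) = (a i : ℂ) • AddMonoidAlgebra.single a c := by
  simp [thL, mo, mul_comm]

noncomputable def th (i : Fin 2) : Derivation ℂ R2 R2 :=
  Derivation.mk' (thL i) (by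
    intro a b
    induction a using AddMonoidAlgebra.induction_linear with
    | zero => simp
    | add a a' ha ha' => simp only [add_mul, map_add, ha, ha', smul_eq_mul, mul_add]; ring
    | single a c =>
      induction b using AddMonoidAlgebra.induction_linear with
      | zero => simp
      | add b b' hb hb' => simp only [add_mul, map_add, hb, hb', smul_eq_mul, mul_add]; ring
      | single b c' =>
        simp only [AddMonoidAlgebra.single_mul_single, thL_single, smul_eq_mul, mul_smul_comm,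
          Pi.add_apply, Int.cast_add, add_smul, add_comm b a, mul_comm c' c]
        rw [add_comm])

theorem th_mo (i : Fin 2) (a : Fin 2 → ℤ) : th i (mo a) = (a i : ℂ) • mo a := thL_single i a 1

noncomputable def dd (i : Fin 2) : Derivation ℂ R2 R2 := yy i • th i

theorem dd_xx (i j : Fin 2) : dd i (xx j) = if i = j then 1 else 0 := by
  rw [dd, Derivation.smul_apply, xx, th_mo, Pi.single_apply]
  split_ifs with h
  · subst h
    rw [Int.cast_one, one_smul, smul_eq_mul, mul_comm]; exact xy i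
  · simp

theorem der_zero {R : Type} [CommRing R] [Algebra ℂ R] {x : Fin 2 → R} (hx : Gen x)
    (E : Derivation ℂ R R) (h : ∀ i, E (x i) = 0) (r : R) : E r = 0 := by
  have := comm_all hx (AlgHom.id ℂ R) E 0 (fun i => by simp [h]) r
  simpa using this.symm

theorem dd_comm (i j : Fin 2) : (dd i : Module.End ℂ R2) * (dd j) = (dd j : Module.End ℂ R2) * (dd i) := by
  refine LinearMap.ext fun y => ?_
  have := der_zero gen2 ⁅dd i, dd j⁆ (fun k => by
    simp only [Derivation.commutator_apply, dd_xx]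
    split_ifs <;> simp) y
  rw [Derivation.commutator_apply] at this
  exact sub_eq_zero.1 this

theorem ltt {k : ℕ} (i j : Fin k) : lt i * lt j = lt j * lt i := by
  simp only [lt, ← map_mul]
  exact RingQuot.mkAlgHom_rel ℂ ⟨i, j, Or.inl ⟨rfl, rfl⟩⟩

theorem ldd {k : ℕ} (i j : Fin k) : ld i * ld j = ld j * ld i := by
  simp only [ld, ← map_mul]
  exact RingQuot.mkAlgHom_rel ℂ ⟨i, j, Or.inr (Or.inl ⟨rfl, rfl⟩)⟩

theorem ldt {k : ℕ} (i j : Fin k) : ld i * lt j - lt j * ld i = if i = j then 1 else 0 := by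
  simp only [ld, lt, ← map_mul, ← map_sub]
  rw [RingQuot.mkAlgHom_rel ℂ ⟨i, j, Or.inr (Or.inr (Or.inl ⟨rfl, rfl⟩))⟩]
  split_ifs <;> simp

theorem ltu {k : ℕ} (i : Fin k) : lt i * lu i = 1 := by
  simp only [lu, lt, ← map_mul]
  rw [RingQuot.mkAlgHom_rel ℂ ⟨i, i, Or.inr (Or.inr (Or.inr (Or.inl ⟨rfl, rfl⟩)))⟩, map_one]

theorem lut {k : ℕ} (i : Fin k) : lu i * lt i = 1 := by
  simp only [lu, lt, ← map_mul]
  rw [RingQuot.mkAlgHom_rel ℂ ⟨i, i, Or.inr (Or.inr (Or.inr (Or.inr ⟨rfl, rfl⟩)))⟩, map_one]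

noncomputable def un {k : ℕ} (i : Fin k) : (LWeyl k)ˣ := ⟨lt i, lu i, ltu i, lut i⟩

theorem un_comm {k : ℕ} (i j : Fin k) : Commute (un i) (un j) := Units.ext (ltt i j)

theorem lpow_comm {k : ℕ} (i j : Fin k) (m : ℤ) : lpow i m * lt j = lt j * lpow i m := by
  rw [lpow]
  split_ifs
  · exact ((show Commute (lt i) (lt j) from ltt i j).pow_left _).eq
  · have : Commute (lu i) (lt j) := Commute.units_val_iff.2 (un_comm i j).inv_left
    exact (this.pow_left _).eq

noncomputable def mon2 : Multiplicative (Fin 2 → ℤ) →* (LWeyl 2)ˣ where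
  toFun β := un 0 ^ (β.toAdd 0) * un 1 ^ (β.toAdd 1)
  map_one' := by simp
  map_mul' β γ := by
    have h : Commute (un (0 : Fin 2)) (un 1) := un_comm 0 1
    simp only [toAdd_mul, Pi.add_apply, zpow_add, mul_assoc]
    congr 1
    rw [← mul_assoc, ← mul_assoc, (h.zpow_zpow _ _).eq]

noncomputable def iota2 : R2 →ₐ[ℂ] LWeyl 2 :=
  AddMonoidAlgebra.lift ℂ _ _ ((Units.coeHom _).comp mon2)

theorem iota2_X (i : Fin 2) : iota2 (xx i) = lt i := by
  rw [iota2, xx, mo, AddMonoidAlgebra.lift_single]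
  fin_cases i <;> simp [mon2, un]

noncomputable def pi2 : LWeyl 2 →ₐ[ℂ] Module.End ℂ R2 :=
  RingQuot.liftAlgHom ℂ ⟨FreeAlgebra.lift ℂ (fun z : Fin 3 × Fin 2 =>
    ![ml (xx z.2), (dd z.2 : Module.End ℂ R2), ml (yy z.2)] z.1), by
    rintro x y ⟨i, j, ⟨rfl, rfl⟩ | ⟨rfl, rfl⟩ | ⟨rfl, rfl⟩ | ⟨rfl, rfl⟩ | ⟨rfl, rfl⟩⟩
    · simp only [map_mul, FreeAlgebra.lift_ι_apply, Matrix.cons_val, ← ml_mul, mul_comm]
    · simp only [map_mul, FreeAlgebra.lift_ι_apply, Matrix.cons_val, dd_comm i j]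
    · simp only [map_mul, map_sub, FreeAlgebra.lift_ι_apply, Matrix.cons_val, der_ml, dd_xx]
      split_ifs
      · simp [ml_one]
      · ext; simp
    · simp only [map_mul, map_one, FreeAlgebra.lift_ι_apply, Matrix.cons_val, ← ml_mul, xy, ml_one]
    · simp only [map_mul, map_one, FreeAlgebra.lift_ι_apply, Matrix.cons_val, ← ml_mul,
        mul_comm (yy i), xy, ml_one]⟩

theorem pi2_t (i : Fin 2) : pi2 (lt i) = ml (xx i) := by
  simp [pi2, lt, RingQuot.liftAlgHom_mkAlgHom_apply]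

theorem pi2_d (i : Fin 2) : pi2 (ld i) = (dd i : Module.End ℂ R2) := by
  simp [pi2, ld, RingQuot.liftAlgHom_mkAlgHom_apply]

theorem pi2_u (i : Fin 2) : pi2 (lu i) = ml (yy i) := by
  simp [pi2, lu, RingQuot.liftAlgHom_mkAlgHom_apply]

theorem pi2_D (y : LWeyl 2) : ∃ m, pi2 y ∈ D m := by
  obtain ⟨y, rfl⟩ := RingQuot.mkAlgHom_surjective ℂ _ y
  refine D_all (pi2.comp (RingQuot.mkAlgHom ℂ _)) ?_ y
  rintro ⟨k, i⟩
  fin_cases k
  · exact (pi2_t i).symm ▸ D_succ (ml_mem _)
  · exact (pi2_d i).symm ▸ der_mem _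
  · exact (pi2_u i).symm ▸ D_succ (ml_mem _)

noncomputable def cf (j : ℤ) : R2 × R2 := abz (xx 0) (xx 1) (yy 1) (xy 1) j

noncomputable def E2 (j : ℤ) : Derivation ℂ R2 R2 := (cf j).1 • dd 0 + (cf j).2 • dd 1

noncomputable def V2 (j : ℤ) : LWeyl 2 := iota2 (cf j).1 * ld 0 + iota2 (cf j).2 * ld 1

theorem E2_s (j : ℤ) : E2 j (xx 0) = (cf j).1 := by simp [E2, dd_xx]
theorem E2_p (j : ℤ) : E2 j (xx 1) = (cf j).2 := by simp [E2, dd_xx]

theorem V2_lie (i j : ℤ) : V2 i * V2 j - V2 j * V2 i = ((j : ℂ) - (i : ℂ)) • V2 (i + j - 1) := by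
  have hc : ∀ (k : Fin 2) (r : R2), ld k * iota2 r - iota2 r * ld k = iota2 (dd k r) :=
    fun k => comm_all gen2 iota2 (dd k) (ld k) fun i => by
      rw [iota2_X, ldt, dd_xx]
      split_ifs <;> simp
  have h := Z3 (xy 1) E2 E2_s E2_p i j
  rw [V2, V2, vf_lie iota2 (dd 0) (dd 1) _ _ (ldd 0 1) (hc 0) (hc 1)]
  change iota2 (E2 i _ - E2 j _) * _ + iota2 (E2 i _ - E2 j _) * _ = _
  rw [cf, cf, h.1, h.2, V2, smul_add, map_mul, map_mul, map_sub, map_intCast, map_intCast,
    Algebra.smul_def, Algebra.smul_def, map_sub, map_intCast, map_intCast, mul_assoc, mul_assoc, cf]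

noncomputable def phi2 : UW →ₐ[ℂ] LWeyl 2 :=
  RingQuot.liftAlgHom ℂ ⟨FreeAlgebra.lift ℂ V2, by
    rintro x y ⟨i, j, rfl, rfl⟩
    simp only [map_mul, map_sub, map_smul, FreeAlgebra.lift_ι_apply, V2_lie]⟩

theorem phi2_ez (j : ℤ) : phi2 (ez j) = V2 j := by
  simp [phi2, ez, RingQuot.liftAlgHom_mkAlgHom_apply]

theorem pi2_V (j : ℤ) : pi2 (V2 j) = E2 j := by
  have h := pi_iota gen2 iota2 pi2 (fun i => by rw [iota2_X, pi2_t])
  rw [V2, map_add, map_mul, map_mul, h, h, pi2_d, pi2_d]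
  refine LinearMap.ext fun y => ?_
  simp [E2]

open LaurentPolynomial in
theorem noroot (r : R2) : r ^ 2 - xx 0 * r + xx 1 ≠ 0 := by
  intro h
  let u : (LaurentPolynomial ℂ)ˣ := ⟨T 1, T (-1), by rw [← T_add]; simp, by rw [← T_add]; simp⟩
  let w : (LaurentPolynomial ℂ)ˣ := Units.map (algebraMap ℂ (LaurentPolynomial ℂ)).toMonoidHom
    (Units.mk0 2 two_ne_zero)
  let μ : Multiplicative (Fin 2 → ℤ) →* (LaurentPolynomial ℂ)ˣ :=
    { toFun := fun β => w ^ (β.toAdd 0) * u ^ (β.toAdd 1)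
      map_one' := by simp
      map_mul' := fun β γ => by
        simp only [toAdd_mul, Pi.add_apply, zpow_add]; exact mul_mul_mul_comm _ _ _ _ }
  let f : R2 →ₐ[ℂ] LaurentPolynomial ℂ := AddMonoidAlgebra.lift ℂ _ _ ((Units.coeHom _).comp μ)
  have f0 : f (xx 0) = 2 := by
    simp only [f, xx, mo, AddMonoidAlgebra.lift_single]
    simp [μ, w]
    exact map_ofNat _ 2
  have f1 : f (xx 1) = T 1 := by
    simp only [f, xx, mo, AddMonoidAlgebra.lift_single]
    simp [μ, u]
  have h1 := congrArg f h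
  rw [map_add, map_sub, map_pow, map_mul, f0, f1, map_zero] at h1
  obtain ⟨n, q, hq⟩ := exists_T_pow (f r - 1)
  apply notsq q n
  apply Polynomial.toLaurent_injective
  rw [map_pow, hq, map_mul, map_pow, map_sub, map_one, Polynomial.toLaurent_X, mul_pow, T_pow, T_pow]
  have : (f r - 1) ^ 2 = 1 - T 1 := by linear_combination h1
  rw [this, mul_comm]
  congr 2
  push_cast
  ring

theorem Q2 : ∃ φ : UW →ₐ[ℂ] LWeyl 2, ∀ (l : ℕ) (n : Fin l → ℕ)
    (g : LWeyl l ⊗[ℂ] Ug n →+* LWeyl 2), ¬ ∀ j, g (psiZ n j) = φ (ez j) := by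
  refine ⟨phi2, fun l n g h => ?_⟩
  rcases l with _ | l
  · have h0 := congrArg pi2 (h 0)
    rw [phi2_ez, pi2_V, psiZ, Finset.univ_eq_empty, Finset.sum_empty, map_zero, map_zero] at h0
    have := LinearMap.congr_fun h0 (xx 0)
    simp only [LinearMap.zero_apply, Derivation.coeFn_coe, E2_s, cf, abz_zero] at this
    have h2 := congrArg (AddMonoidAlgebra.lift ℂ ℂ (Fin 2 → ℤ) 1) this
    rw [map_zero, map_ofNat] at h2
    exact two_ne_zero h2.symm
  obtain ⟨r, hr⟩ := final gen2 pi2.toRingHom pi2_D g (lt 0 ⊗ₜ[ℂ] 1) (fun j => psiZ n j) (fun j => by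
      rw [psiZ, psi_comm 0 (lt 0) (fun i => lpow i j) ld n _ _
        (fun i => lpow_comm i 0 j) (fun i => ldt i 0)]
      · simp [lpow]
      · intro i p
        rw [smul_mul_assoc, mul_smul_comm, lpow_comm]) (fun j => E2 j)
    (fun j => by rw [h, phi2_ez]; exact pi2_V j)
  refine noroot r (root (dd 0) (dd 1) r fun j => ?_)
  rw [← abz_nat (xy 1)]
  exact hr j

end Pool.Agent.H.MP_8879ae_al
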